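import Mathlib
import Pool.Agent.H317R3.Free
import Pool.Agent.H317R3.Poly

set_option autoImplicit false

/-!
Polynomial joint recurrence fails for suitable pairs of minimal systems on one space.

Idea. For a sequence of positions whose gaps tend to infinity there is a minimal subshift in which,
after every window of a suitable length, the letters at these positions can be prescribed freely. So
the pattern of the return times along the sequence is an open map onto the Cantor space, and the
subshift is a product of this Cantor space with another one. Two such systems, one for `p` and one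
for `q`, are put on one space in such a way that the patterns of the return times are complementary.
-/

namespace Pool.Agent.Results.MP_c19a8f_an.NoJointRecurrence

open Filter Topology Pool.Agent.H317R3

/-- The system `(X, T)` is minimal: the orbit `{T^n x : n ∈ ℤ}` of every point `x` is dense. -/
def IsMinimal {X : Type} [TopologicalSpace X] (T : X ≃ₜ X) : Prop :=
  ∀ x : X, Dense (Set.range fun n : ℤ => (T ^ n) x)

/-- The point `x` is `(p, q)`-jointly recurrent for `(T, S)`: there are integers `n i → ∞` with
`T^{p(n i)} x → x` and `S^{q(n i)} x → x`. -/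
def JointlyRecurrent {X : Type} [TopologicalSpace X] (p q : Polynomial ℤ) (T S : X ≃ₜ X)
    (x : X) : Prop :=
  ∃ n : ℕ → ℤ, Tendsto n atTop atTop ∧
    Tendsto (fun i => (T ^ (p.eval (n i))) x) atTop (𝓝 x) ∧
    Tendsto (fun i => (S ^ (q.eval (n i))) x) atTop (𝓝 x)

lemma side (p : Polynomial ℤ) (hp : 2 ≤ p.natDegree) : ∃ N : ℕ, ∀ M, N ≤ M →
    ∃ (T : XX ≃ₜ XX) (f : XX → Bool), Continuous f ∧ IsMinimal T ∧
      ∀ (x : XX) (i : ℕ), f ((T ^ (p.eval ((M + i : ℕ) : ℤ))) x) = f x ↔ x.1 i = true := by
  have key : ∀ P : Polynomial ℤ, 2 ≤ P.natDegree → 0 < P.leadingCoeff → ∃ N : ℕ, ∀ M, N ≤ M →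
      ∃ (T : XX ≃ₜ XX) (f : XX → Bool), Continuous f ∧ IsMinimal T ∧
      ∀ (x : XX) (i : ℕ), f ((T ^ (P.eval ((M + i : ℕ) : ℤ))) x) = f x ↔ x.1 i = true := by
    intro P hP hl
    obtain ⟨t, N0, ht, hgap, hev⟩ := poly_seq P hP hl
    obtain ⟨N1, hN1⟩ := free_system t ht hgap
    refine ⟨N0 + N1, fun M hM => ?_⟩
    obtain ⟨T, f, hf, hT, hr⟩ := hN1 (M - N0) (by omega)
    refine ⟨T, f, hf, hT, fun x i => ?_⟩
    rw [← hr x i, hev, show N0 + (M - N0 + i) = M + i by omega]
  by_cases hl : 0 < p.leadingCoeff
  · exact key p hp hl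
  · have hl' : 0 < (-p).leadingCoeff := by
      have h0 : p.leadingCoeff ≠ 0 := by
        rw [Ne, Polynomial.leadingCoeff_eq_zero]
        rintro rfl
        simp at hp
      rw [Polynomial.leadingCoeff_neg]
      omega
    obtain ⟨N, hN⟩ := key (-p) (by rwa [Polynomial.natDegree_neg]) hl'
    refine ⟨N, fun M hM => ?_⟩
    obtain ⟨T, f, hf, hT, hr⟩ := hN M hM
    have hinv : ∀ n : ℤ, T⁻¹ ^ n = T ^ (-n) := fun n => by rw [inv_zpow, zpow_neg]
    refine ⟨T⁻¹, f, hf, ?_, fun x i => ?_⟩
    · intro x
      have : (Set.range fun n : ℤ => (T⁻¹ ^ n) x) = Set.range fun n : ℤ => (T ^ n) x := by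
        ext y
        constructor
        · rintro ⟨n, rfl⟩
          exact ⟨-n, by simp only [hinv]⟩
        · rintro ⟨n, rfl⟩
          exact ⟨-n, by simp only [hinv, neg_neg]⟩
      rw [this]
      exact hT x
    · rw [← hr x i, hinv, Polynomial.eval_neg]

/-- The homeomorphism of the Cantor space `XX` which complements the first sequence. -/
def flip : XX ≃ₜ XX where
  toFun x := (fun i => !x.1 i, x.2)
  invFun x := (fun i => !x.1 i, x.2)
  left_inv x := by simp
  right_inv x := by simp
  continuous_toFun := by
    refine Continuous.prodMk (continuous_pi fun i => ?_) continuous_snd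
    exact (continuous_of_discreteTopology (f := fun b : Bool => !b)).comp
      ((continuous_apply i).comp continuous_fst)
  continuous_invFun := by
    refine Continuous.prodMk (continuous_pi fun i => ?_) continuous_snd
    exact (continuous_of_discreteTopology (f := fun b : Bool => !b)).comp
      ((continuous_apply i).comp continuous_fst)

/-- Let `p` and `q` be integer polynomials of degree at least `2` which vanish at `0`. There are a
(nonempty) compact metric space `X` and minimal homeomorphisms `T` and `S` of `X` such that no point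
of `X` is `(p, q)`-jointly recurrent for `(T, S)`. -/
theorem result (p q : Polynomial ℤ) (_hp0 : p.eval 0 = 0) (_hq0 : q.eval 0 = 0)
    (hp : 2 ≤ p.natDegree) (hq : 2 ≤ q.natDegree) :
    ∃ (X : Type) (_ : MetricSpace X) (_ : CompactSpace X) (_ : Nonempty X) (T S : X ≃ₜ X),
      IsMinimal T ∧ IsMinimal S ∧ ∀ x : X, ¬ JointlyRecurrent p q T S x := by
  obtain ⟨N1, hN1⟩ := side p hp
  obtain ⟨N2, hN2⟩ := side q hq
  obtain ⟨T, f, hf, hT, hfr⟩ := hN1 (max N1 N2) (le_max_left _ _)
  obtain ⟨S0, g, hg, hS0, hgr⟩ := hN2 (max N1 N2) (le_max_right _ _)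
  set M := max N1 N2 with hM
  refine ⟨XX, TopologicalSpace.metrizableSpaceMetric XX, inferInstance, inferInstance, T,
    (flip.symm.trans S0).trans flip, hT, ?_, ?_⟩
  · intro x
    have h1 : (fun n : ℤ => (((flip.symm.trans S0).trans flip) ^ n) x) =
        flip ∘ fun n : ℤ => (S0 ^ n) (flip.symm x) := by
      funext n
      exact homeo_conj_zpow flip _ n x
    rw [h1]
    exact flip.surjective.denseRange.comp (hS0 _) flip.continuous
  · rintro x ⟨n, hn, h1, h2⟩
    have e1 : ∀ᶠ k in atTop, f ((T ^ (p.eval (n k))) x) = f x := by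
      have := (hf.tendsto x).comp h1
      rw [nhds_discrete, tendsto_pure] at this
      exact this
    have e2 : ∀ᶠ k in atTop, g (flip.symm ((((flip.symm.trans S0).trans flip) ^
        (q.eval (n k))) x)) = g (flip.symm x) := by
      have := ((hg.comp flip.symm.continuous).tendsto x).comp h2
      rw [nhds_discrete, tendsto_pure] at this
      exact this
    have e3 : ∀ᶠ k in atTop, (M : ℤ) ≤ n k := hn.eventually_ge_atTop _
    obtain ⟨k, h3, h4, h5⟩ := (e1.and (e2.and e3)).exists
    obtain ⟨i, hi⟩ : ∃ i : ℕ, n k = ((M + i : ℕ) : ℤ) := ⟨(n k - M).toNat, by push_cast; omega⟩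
    rw [hi] at h3 h4
    rw [homeo_conj_zpow, flip.symm_apply_apply, hgr] at h4
    rw [hfr] at h3
    have h6 : (!x.1 i) = true := h4
    rw [h3] at h6
    simp at h6

end Pool.Agent.Results.MP_c19a8f_an.NoJointRecurrence
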